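import Pool.Agent.H241R3.CF.Stmts

set_option autoImplicit false

open MeasureTheory Metric Set Filter Topology InnerProductGeometry

namespace Pool.Agent.H241R3.CF

open Pool.Agent.H241R3.FV

theorem mainCF_of (hPolar : TaskPolar) (hInv : TaskInv) (hAvg : TaskAvg) (hCont : TaskCont)
    (hLen : TaskLen) (hPath : TaskPath) (hOne : TaskOne) (hLayer : TaskLayer) (hWal : TaskWal)
    (hVol : TaskVol) : MainCF := by
  intro d hd M _ S hS
  set ψ : ℝ → ℝ := psi S.F with hψ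
  obtain ⟨hc, hp⟩ := hCont d S.F S.cont S.pos
  have hcond : PsiCond ψ := hPath hAvg hLen d hd M S hS
  obtain ⟨hk, hconst⟩ := hWal hPolar d hd
  have hvol := hVol hInv hAvg d hd S.F S.cont S.pos
  have hlay := hLayer d hd ψ hc hp
  -- lower bound of the layer integral
  have hcontI : Continuous fun s : ℝ => s ^ (d - 1) * ((1 - s) * (Real.pi / 2)) := by fun_prop
  have h1 : ENNReal.ofReal (∫ s in (0 : ℝ)..1, s ^ (d - 1) * ((1 - s) * (Real.pi / 2))) ≤
      ∫⁻ s in Ioi (0 : ℝ), ENNReal.ofReal (s ^ (d - 1)) *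
        (∫⁻ t in Iic (0 : ℝ), ENNReal.ofReal √(ψ t ^ 2 - s ^ 2)) := by
    rw [intervalIntegral.integral_of_le zero_le_one, integral_Ioc_eq_integral_Ioo,
      ofReal_integral_eq_lintegral_ofReal]
    · calc ∫⁻ s in Ioo (0 : ℝ) 1, ENNReal.ofReal (s ^ (d - 1) * ((1 - s) * (Real.pi / 2)))
          ≤ ∫⁻ s in Ioo (0 : ℝ) 1, ENNReal.ofReal (s ^ (d - 1)) *
            (∫⁻ t in Iic (0 : ℝ), ENNReal.ofReal √(ψ t ^ 2 - s ^ 2)) := by
            refine setLIntegral_mono' measurableSet_Ioo fun s hs => ?_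
            rw [ENNReal.ofReal_mul (pow_nonneg hs.1.le _)]
            gcongr
            exact hOne ψ hc hp hcond s hs.1 hs.2
        _ ≤ _ := lintegral_mono_set Ioo_subset_Ioi_self
    · exact (hcontI.integrableOn_Icc (a := 0) (b := 1)).mono_set Ioo_subset_Icc_self
    · refine (ae_restrict_mem measurableSet_Ioo).mono fun s hs => ?_
      have h1 : 0 ≤ 1 - s := by linarith [hs.2]
      have h2 : 0 ≤ s ^ (d - 1) := pow_nonneg hs.1.le _
      have h3 := Real.pi_pos
      show 0 ≤ s ^ (d - 1) * ((1 - s) * (Real.pi / 2))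
      positivity
  rw [hlay] at h1
  have hJ0 : 0 ≤ ∫ s in (0 : ℝ)..1, s ^ (d - 1) * ((1 - s) * (Real.pi / 2)) := by
    refine intervalIntegral.integral_nonneg zero_le_one fun s hs => ?_
    have h1 : 0 ≤ 1 - s := by linarith [hs.2]
    have h2 : 0 ≤ s ^ (d - 1) := pow_nonneg hs.1 _
    have h3 := Real.pi_pos
    positivity
  have hom : 0 ≤ (d + 1 : ℝ) * om (d + 1) := by
    unfold om
    positivity
  have h2 : ENNReal.ofReal ((∫ s in (0 : ℝ)..1, s ^ (d - 1) * ((1 - s) * (Real.pi / 2))) / kap d) ≤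
      ∫⁻ t in Iic (0 : ℝ), ENNReal.ofReal (ψ t ^ (d + 1)) := by
    rw [ENNReal.ofReal_div_of_pos hk]
    refine ENNReal.div_le_of_le_mul ?_
    rw [mul_comm]
    exact h1
  have hvol' : ENNReal.ofReal ((d + 1 : ℝ) * om (d + 1)) *
      (∫⁻ t in Iic (0 : ℝ), ENNReal.ofReal (ψ t ^ (d + 1))) ≤ S.vol := hvol
  refine le_trans ?_ hvol'
  rw [← hconst, ENNReal.ofReal_mul hom]
  gcongr

end Pool.Agent.H241R3.CF
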