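import Pool.Agent.H241R3.CF.Defs
import Pool.Agent.H892R2.Proj.Haar

/-!
# Conformally flat fillings: tasks
-/

set_option autoImplicit false

open MeasureTheory Metric Set Filter Topology InnerProductGeometry

namespace Pool.Agent.H241R3.CF

open Pool.Agent.H241R3.FV
open Pool.Agent.H892R2.Proj (O haarO)

/-- action of an orthogonal matrix on a vector -/
noncomputable def ga {n : ℕ} (g : O n) (v : FV.E n) : FV.E n := act g.1 v

/-- the point with logarithmic radius `t` and angle `θ` in the plane of the first two coordinates -/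
noncomputable def pt {d : ℕ} (hd : 1 ≤ d) (t θ : ℝ) : FV.E (d + 1) :=
  (Real.exp t * Real.cos θ) • EuclideanSpace.single (0 : Fin (d + 1)) (1 : ℝ) +
    (Real.exp t * Real.sin θ) • EuclideanSpace.single (⟨1, by omega⟩ : Fin (d + 1)) (1 : ℝ)

/-- the average of `F` over the sphere of radius `exp t`, times `exp t` -/
noncomputable def psi {d : ℕ} (F : FV.E (d + 1) → ℝ) (t : ℝ) : ℝ :=
  Real.exp t * ∫ g : O (d + 1), F (ga g (Real.exp t • EuclideanSpace.single 0 1)) ∂(haarO (d + 1))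

/-- The length condition for the family of test curves: down to level `-a` with angular velocity
`w`, then by the angle `b` along the level, then up again. -/
def PsiCond (ψ : ℝ → ℝ) : Prop :=
  ∀ (a b : ℝ) (w : ℝ → ℝ), 0 ≤ a → 0 ≤ b → Continuous w →
    2 * (∫ r in (0 : ℝ)..a, w r) + b = Real.pi →
    Real.pi ≤ 2 * (∫ r in (0 : ℝ)..a, ψ (-r) * √(1 + w r ^ 2)) + ψ (-a) * b

/-- the constant `∫_0^1 u^(d-1) √(1-u²) du` -/
noncomputable def kap (d : ℕ) : ℝ := ∫ u in (0 : ℝ)..1, u ^ (d - 1) * √(1 - u ^ 2)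

/-- Averages over the orthogonal group do not depend on the direction. -/
def TaskAvg : Prop :=
  ∀ (d : ℕ) (h : FV.E (d + 1) → ℝ) (v w : FV.E (d + 1)), ‖v‖ = ‖w‖ →
    ∫ g : O (d + 1), h (ga g v) ∂(haarO (d + 1)) = ∫ g : O (d + 1), h (ga g w) ∂(haarO (d + 1))

/-- Continuity and positivity of `psi`. -/
def TaskCont : Prop :=
  ∀ (d : ℕ) (F : FV.E (d + 1) → ℝ), ContinuousOn F (closedBall 0 1 \ {0}) →
    (∀ x ∈ closedBall (0 : FV.E (d + 1)) 1 \ {0}, 0 < F x) →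
    ContinuousOn (psi F) (Iic 0) ∧ ∀ t ≤ 0, 0 < psi F t

/-- The length of a rotated curve, averaged over the rotations. -/
def TaskLen : Prop :=
  TaskAvg → ∀ (d : ℕ) (hd : 1 ≤ d) (F : FV.E (d + 1) → ℝ),
    ContinuousOn F (closedBall 0 1 \ {0}) →
    ∀ (a b : ℝ) (T Θ : ℝ → ℝ), a ≤ b → ContDiff ℝ 1 T → ContDiff ℝ 1 Θ →
      (∀ t ∈ Icc a b, T t ≤ 0) →
      Integrable (fun g : O (d + 1) => ∫ t in a..b, F (ga g (pt hd (T t) (Θ t))) *
        ‖deriv (fun t => ga g (pt hd (T t) (Θ t))) t‖) (haarO (d + 1)) ∧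
      ∫ g : O (d + 1), (∫ t in a..b, F (ga g (pt hd (T t) (Θ t))) *
        ‖deriv (fun t => ga g (pt hd (T t) (Θ t))) t‖) ∂(haarO (d + 1)) =
        ∫ t in a..b, psi F (T t) * √(deriv T t ^ 2 + deriv Θ t ^ 2)

/-- The test curves. -/
def TaskPath : Prop :=
  TaskAvg → TaskLen → ∀ (d : ℕ) (_ : 1 ≤ d) (M : Type) [MetricSpace M] (S : ConfFill d M),
    S.Antipodal → PsiCond (psi S.F)

/-- The one-dimensional inequality. -/
def TaskOne : Prop :=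
  ∀ ψ : ℝ → ℝ, ContinuousOn ψ (Iic 0) → (∀ t ≤ 0, 0 < ψ t) → PsiCond ψ →
    ∀ s : ℝ, 0 < s → s < 1 →
      ENNReal.ofReal ((1 - s) * (Real.pi / 2)) ≤
        ∫⁻ t in Iic (0 : ℝ), ENNReal.ofReal √(ψ t ^ 2 - s ^ 2)

/-- Layer cake. -/
def TaskLayer : Prop :=
  ∀ (d : ℕ), 1 ≤ d → ∀ ψ : ℝ → ℝ, ContinuousOn ψ (Iic 0) → (∀ t ≤ 0, 0 < ψ t) →
    ∫⁻ s in Ioi (0 : ℝ), ENNReal.ofReal (s ^ (d - 1)) *
      (∫⁻ t in Iic (0 : ℝ), ENNReal.ofReal √(ψ t ^ 2 - s ^ 2)) =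
    ENNReal.ofReal (kap d) * ∫⁻ t in Iic (0 : ℝ), ENNReal.ofReal (ψ t ^ (d + 1))

/-- The constants. -/
def TaskWal : Prop :=
  TaskPolar → ∀ (d : ℕ), 1 ≤ d → 0 < kap d ∧
    (d + 1 : ℝ) * om (d + 1) *
      ((∫ s in (0 : ℝ)..1, s ^ (d - 1) * ((1 - s) * (Real.pi / 2))) / kap d) =
      (d + 2 : ℝ) * om (d + 2) / 2

/-- The volume is at least the volume of the average. -/
def TaskVol : Prop :=
  TaskInv → TaskAvg → ∀ (d : ℕ), 1 ≤ d → ∀ F : FV.E (d + 1) → ℝ,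
    ContinuousOn F (closedBall 0 1 \ {0}) →
    (∀ x ∈ closedBall (0 : FV.E (d + 1)) 1 \ {0}, 0 < F x) →
    ENNReal.ofReal ((d + 1 : ℝ) * om (d + 1)) *
      (∫⁻ t in Iic (0 : ℝ), ENNReal.ofReal (psi F t ^ (d + 1))) ≤
    ∫⁻ x in ball (0 : FV.E (d + 1)) 1, ENNReal.ofReal (F x ^ (d + 1))

/-- The main statement. -/
def MainCF : Prop :=
  ∀ (d : ℕ), 1 ≤ d → ∀ (M : Type) [MetricSpace M] (S : ConfFill d M), S.Antipodal →
    ENNReal.ofReal ((d + 2 : ℝ) * om (d + 2) / 2) ≤ S.vol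

end Pool.Agent.H241R3.CF
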