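import Pool.Agent.H241R3.CF.Stmts

/-! # TaskPath (helper192) -/

set_option autoImplicit false

open MeasureTheory Metric Set Filter Topology InnerProductGeometry

namespace Pool.Agent.H241R3.CF.TPath

open Pool.Agent.H241R3.FV Pool.Agent.H241R3.CF
open Pool.Agent.H892R2.Proj (O haarO)

theorem ga_apply {n : ℕ} (g : O n) (v : FV.E n) (i : Fin n) :
    (ga g v) i = ∑ j, g.1 i j * v j := rfl

theorem ga_neg {n : ℕ} (g : O n) (v : FV.E n) : ga g (-v) = -(ga g v) := by
  ext i
  rw [PiLp.neg_apply, ga_apply, ga_apply, ← Finset.sum_neg_distrib]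
  refine Finset.sum_congr rfl (fun j _ => ?_)
  rw [PiLp.neg_apply]; ring

theorem ga_norm {n : ℕ} (g : O n) (v : FV.E n) : ‖ga g v‖ = ‖v‖ := by
  have h : ‖ga g v‖ ^ 2 = ‖v‖ ^ 2 := by
    rw [EuclideanSpace.norm_sq_eq, EuclideanSpace.norm_sq_eq]
    simp only [Real.norm_eq_abs, sq_abs]
    have hg : g.1.transpose * g.1 = 1 := (Matrix.mem_orthogonalGroup_iff' (Fin n) ℝ).1 g.2
    have e1 : ∀ u : Fin n → ℝ, (g.1.mulVec u) ⬝ᵥ (g.1.mulVec u) = u ⬝ᵥ u := by
      intro u
      rw [Matrix.dotProduct_mulVec, ← Matrix.mulVec_transpose, Matrix.mulVec_mulVec, hg,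
        Matrix.one_mulVec]
    have e2 := e1 (fun j => v j)
    simp only [dotProduct] at e2
    calc ∑ i, (ga g v) i ^ 2 = ∑ i, g.1.mulVec (fun j => v j) i * g.1.mulVec (fun j => v j) i := by
          refine Finset.sum_congr rfl (fun i _ => ?_)
          rw [ga_apply, sq]
          rfl
      _ = ∑ i, v i * v i := e2
      _ = ∑ i, v i ^ 2 := Finset.sum_congr rfl (fun i _ => by ring)
  exact (sq_eq_sq₀ (norm_nonneg _) (norm_nonneg _)).mp h

theorem pt_norm {d : ℕ} (hd : 1 ≤ d) (t θ : ℝ) : ‖pt hd t θ‖ = Real.exp t := by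
  have h : ‖pt hd t θ‖ ^ 2 = Real.exp t ^ 2 := by
    unfold pt
    rw [norm_add_sq_real]
    have h0 : (⟨1, by omega⟩ : Fin (d + 1)) ≠ 0 := by
      intro h; have := congrArg Fin.val h; simp at this
    simp only [norm_smul, inner_smul_left, inner_smul_right, EuclideanSpace.inner_single_left,
      EuclideanSpace.norm_single]
    rw [PiLp.single_apply]
    rw [if_neg (Ne.symm h0)]
    simp only [Real.norm_eq_abs, norm_one, mul_one, sq_abs, mul_zero, add_zero]
    nlinarith [Real.sin_sq_add_cos_sq θ]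
  exact (sq_eq_sq₀ (norm_nonneg _) (Real.exp_pos _).le).mp h

theorem pt_pi {d : ℕ} (hd : 1 ≤ d) : pt hd 0 Real.pi = -(pt hd 0 0) := by
  unfold pt
  simp

theorem ga_pt_contDiff {d : ℕ} (hd : 1 ≤ d) (g : O (d + 1)) (T Θ : ℝ → ℝ) (hT : ContDiff ℝ 1 T)
    (hΘ : ContDiff ℝ 1 Θ) : ContDiff ℝ 1 (fun t => ga g (pt hd (T t) (Θ t))) := by
  rw [contDiff_euclidean]
  intro i
  have e : (fun t => (ga g (pt hd (T t) (Θ t))) i) = fun t => ∑ j, g.1 i j *
      ((Real.exp (T t) * Real.cos (Θ t)) * (EuclideanSpace.single (0 : Fin (d + 1)) (1 : ℝ)) j +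
      (Real.exp (T t) * Real.sin (Θ t)) *
        (EuclideanSpace.single (⟨1, by omega⟩ : Fin (d + 1)) (1 : ℝ)) j) := by
    funext t
    rw [ga_apply]
    rfl
  rw [e]
  refine ContDiff.sum (fun j _ => ?_)
  have h1 : ContDiff ℝ 1 (fun t => Real.exp (T t)) := hT.exp
  have h2 : ContDiff ℝ 1 (fun t => Real.cos (Θ t)) := hΘ.cos
  have h3 : ContDiff ℝ 1 (fun t => Real.sin (Θ t)) := hΘ.sin
  exact contDiff_const.mul (((h1.mul h2).mul contDiff_const).add ((h1.mul h3).mul contDiff_const))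

theorem dist_curve {d : ℕ} (hd : 1 ≤ d) (M : Type) [MetricSpace M] (S : ConfFill d M)
    (g : O (d + 1)) (a b : ℝ) (T Θ : ℝ → ℝ) (hab : a ≤ b) (hT : ContDiff ℝ 1 T)
    (hΘ : ContDiff ℝ 1 Θ) (hT0 : ∀ t ∈ Icc a b, T t ≤ 0) :
    dist (S.map (ga g (pt hd (T a) (Θ a)))) (S.map (ga g (pt hd (T b) (Θ b)))) ≤
      ∫ t in a..b, S.F (ga g (pt hd (T t) (Θ t))) *
        ‖deriv (fun t => ga g (pt hd (T t) (Θ t))) t‖ := by
  refine S.dist_le a b (fun t => ga g (pt hd (T t) (Θ t))) hab (ga_pt_contDiff hd g T Θ hT hΘ) ?_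
  intro t ht
  have h : ‖ga g (pt hd (T t) (Θ t))‖ = Real.exp (T t) := by rw [ga_norm, pt_norm]
  refine ⟨?_, ?_⟩
  · rw [mem_closedBall_zero_iff, h]
    exact Real.exp_le_one_iff.mpr (hT0 t ht)
  · intro h0
    rw [mem_singleton_iff] at h0
    rw [h0, norm_zero] at h
    exact (Real.exp_pos _).ne h

theorem W_hasDeriv (w : ℝ → ℝ) (hw : Continuous w) (x : ℝ) :
    HasDerivAt (fun x => ∫ r in (0 : ℝ)..x, w r) (w x) x :=
  (hw.integral_hasStrictDerivAt 0 x).hasDerivAt

theorem W_contDiff (w : ℝ → ℝ) (hw : Continuous w) :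
    ContDiff ℝ 1 (fun x => ∫ r in (0 : ℝ)..x, w r) := by
  rw [contDiff_one_iff_deriv]
  refine ⟨fun x => (W_hasDeriv w hw x).differentiableAt, ?_⟩
  have : deriv (fun x => ∫ r in (0 : ℝ)..x, w r) = w := by
    funext x; exact (W_hasDeriv w hw x).deriv
  rw [this]; exact hw

theorem main : TaskPath := by
  intro hAvg hLen d hd M _ S hS a b w ha hb hw hab
  set A : ℝ := ∫ r in (0 : ℝ)..a, w r with hA
  -- the three families
  have hL1 := hLen hAvg d hd S.F S.cont 0 a (fun t => -t) (fun t => ∫ r in (0 : ℝ)..t, w r) ha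
    contDiff_neg (W_contDiff w hw) (fun t ht => by simpa using ht.1)
  have hL2 := hLen hAvg d hd S.F S.cont 0 b (fun _ => -a) (fun t => A + t) hb
    contDiff_const (contDiff_const.add contDiff_id) (fun t _ => by simpa using ha)
  have hc3 : ContDiff ℝ 1 (fun t => Real.pi - ∫ r in (0 : ℝ)..(a - t), w r) :=
    contDiff_const.sub ((W_contDiff w hw).comp (contDiff_const.sub contDiff_id))
  have hL3 := hLen hAvg d hd S.F S.cont 0 a (fun t => t - a)
    (fun t => Real.pi - ∫ r in (0 : ℝ)..(a - t), w r) ha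
    (contDiff_id.sub contDiff_const) hc3 (fun t ht => by linarith [ht.2])
  -- pointwise inequality
  have hpt : ∀ g : O (d + 1), Real.pi ≤
      (∫ t in (0 : ℝ)..a, S.F (ga g (pt hd (-t) (∫ r in (0 : ℝ)..t, w r))) *
        ‖deriv (fun t => ga g (pt hd (-t) (∫ r in (0 : ℝ)..t, w r))) t‖) +
      (∫ t in (0 : ℝ)..b, S.F (ga g (pt hd (-a) (A + t))) *
        ‖deriv (fun t => ga g (pt hd (-a) (A + t))) t‖) +
      (∫ t in (0 : ℝ)..a, S.F (ga g (pt hd (t - a) (Real.pi - ∫ r in (0 : ℝ)..(a - t), w r))) *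
        ‖deriv (fun t => ga g (pt hd (t - a) (Real.pi - ∫ r in (0 : ℝ)..(a - t), w r))) t‖) := by
    intro g
    have d1 := dist_curve hd M S g 0 a (fun t => -t) (fun t => ∫ r in (0 : ℝ)..t, w r) ha
      contDiff_neg (W_contDiff w hw) (fun t ht => by simpa using ht.1)
    have d2 := dist_curve hd M S g 0 b (fun _ => -a) (fun t => A + t) hb
      contDiff_const (contDiff_const.add contDiff_id) (fun t _ => by simpa using ha)
    have d3 := dist_curve hd M S g 0 a (fun t => t - a)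
      (fun t => Real.pi - ∫ r in (0 : ℝ)..(a - t), w r) ha
      (contDiff_id.sub contDiff_const) hc3 (fun t ht => by linarith [ht.2])
    simp only [neg_zero, intervalIntegral.integral_same, add_zero, zero_sub, sub_zero, sub_self]
      at d1 d2 d3
    rw [← hA] at d1 d3
    have e1 : A + b = Real.pi - A := by linarith
    rw [e1] at d2
    have hx : ‖ga g (pt hd 0 0)‖ = 1 := by rw [ga_norm, pt_norm, Real.exp_zero]
    have h0 := hS _ hx
    rw [← ga_neg, ← pt_pi] at h0
    have t1 := dist_triangle4 (S.map (ga g (pt hd 0 0))) (S.map (ga g (pt hd (-a) A)))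
      (S.map (ga g (pt hd (-a) (Real.pi - A)))) (S.map (ga g (pt hd 0 Real.pi)))
    linarith
  have hint := integral_mono (μ := haarO (d + 1)) (integrable_const Real.pi)
    ((hL1.1.add hL2.1).add hL3.1) (fun g => hpt g)
  have hconst : ∫ _g : O (d + 1), Real.pi ∂(haarO (d + 1)) = Real.pi := by simp
  rw [hconst] at hint
  have hsum : ∫ g : O (d + 1), (((fun g : O (d + 1) => ∫ t in (0 : ℝ)..a,
        S.F (ga g (pt hd (-t) (∫ r in (0 : ℝ)..t, w r))) *
        ‖deriv (fun t => ga g (pt hd (-t) (∫ r in (0 : ℝ)..t, w r))) t‖) +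
      (fun g : O (d + 1) => ∫ t in (0 : ℝ)..b, S.F (ga g (pt hd (-a) (A + t))) *
        ‖deriv (fun t => ga g (pt hd (-a) (A + t))) t‖)) +
      (fun g : O (d + 1) => ∫ t in (0 : ℝ)..a,
        S.F (ga g (pt hd (t - a) (Real.pi - ∫ r in (0 : ℝ)..(a - t), w r))) *
        ‖deriv (fun t => ga g (pt hd (t - a) (Real.pi - ∫ r in (0 : ℝ)..(a - t), w r))) t‖)) g
      ∂(haarO (d + 1))
      = (∫ t in (0 : ℝ)..a, psi S.F (-t) * √(1 + w t ^ 2)) + psi S.F (-a) * b +
        ∫ t in (0 : ℝ)..a, psi S.F (-t) * √(1 + w t ^ 2) := by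
    rw [integral_add' (hL1.1.add hL2.1) hL3.1, integral_add' hL1.1 hL2.1, hL1.2, hL2.2, hL3.2]
    congr 1
    · congr 1
      · refine intervalIntegral.integral_congr (fun t _ => ?_)
        rw [(W_hasDeriv w hw t).deriv]
        have : deriv (fun t : ℝ => -t) t = -1 := (hasDerivAt_neg t).deriv
        rw [this]
        norm_num
      · have h1 : ∀ t : ℝ, psi S.F (-a) * √(deriv (fun _ : ℝ => -a) t ^ 2 +
            deriv (fun t => A + t) t ^ 2) = psi S.F (-a) := by
          intro t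
          have e1 : deriv (fun _ : ℝ => -a) t = 0 := deriv_const _ _
          have e2 : deriv (fun t => A + t) t = 1 := ((hasDerivAt_id t).const_add A).deriv
          rw [e1, e2]; norm_num
        rw [intervalIntegral.integral_congr (g := fun _ => psi S.F (-a)) (fun t _ => h1 t)]
        simp
        ring
    · have h1 : ∀ t : ℝ, psi S.F (t - a) * √(deriv (fun t : ℝ => t - a) t ^ 2 +
            deriv (fun t => Real.pi - ∫ r in (0 : ℝ)..(a - t), w r) t ^ 2) =
            (fun r => psi S.F (-r) * √(1 + w r ^ 2)) (a - t) := by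
        intro t
        have e1 : deriv (fun t : ℝ => t - a) t = 1 := ((hasDerivAt_id t).sub_const a).deriv
        have e2 : HasDerivAt (fun t => Real.pi - ∫ r in (0 : ℝ)..(a - t), w r) (w (a - t)) t := by
          have h2 : HasDerivAt (fun t : ℝ => a - t) (-1) t := by
            simpa using (hasDerivAt_id t).const_sub a
          have h3 := (W_hasDeriv w hw (a - t)).comp t h2
          have h4 := h3.const_sub Real.pi
          have h5 : -(w (a - t) * -1) = w (a - t) := by ring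
          rw [h5] at h4
          exact h4
        rw [e1, e2.deriv]
        have e3 : -(a - t) = t - a := by ring
        simp only [e3]
        norm_num
      rw [intervalIntegral.integral_congr (g := fun t => (fun r => psi S.F (-r) * √(1 + w r ^ 2)) (a - t))
        (fun t _ => h1 t)]
      rw [intervalIntegral.integral_comp_sub_left (fun r => psi S.F (-r) * √(1 + w r ^ 2)) a]
      simp
  have hfin : Real.pi ≤ (∫ t in (0 : ℝ)..a, psi S.F (-t) * √(1 + w t ^ 2)) + psi S.F (-a) * b +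
        ∫ t in (0 : ℝ)..a, psi S.F (-t) * √(1 + w t ^ 2) := by
    rw [← hsum]
    exact hint
  linarith

end Pool.Agent.H241R3.CF.TPath

namespace Pool.Agent.H241R3.CF

theorem taskPath : TaskPath := TPath.main

end Pool.Agent.H241R3.CF
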