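import Pool.Agent.H241R3.FV.Stmts

/-!
# Conformally flat fillings: definition
-/

set_option autoImplicit false

open MeasureTheory Metric Set Filter Topology InnerProductGeometry

namespace Pool.Agent.H241R3.CF

open Pool.Agent.H241R3.FV

/-- A conformally flat filling of `S^d`: a metric space `M` with a map from the punctured closed unit
ball of `ℝ^(d+1)` to `M` and a continuous positive function `F` on the punctured closed ball, such that
the distance in `M` is at most the length of curves for the metric `F(x)² |dx|²`. The boundary
sphere is the unit sphere with its standard identification with `S^d`. -/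
structure ConfFill (d : ℕ) (M : Type) [MetricSpace M] where
  /-- conformal factor -/
  F : E (d + 1) → ℝ
  cont : ContinuousOn F (closedBall 0 1 \ {0})
  pos : ∀ x ∈ closedBall (0 : E (d + 1)) 1 \ {0}, 0 < F x
  /-- parametrisation -/
  map : E (d + 1) → M
  dist_le : ∀ (a b : ℝ) (γ : ℝ → E (d + 1)), a ≤ b → ContDiff ℝ 1 γ →
    (∀ t ∈ Icc a b, γ t ∈ closedBall (0 : E (d + 1)) 1 \ {0}) →
    dist (map (γ a)) (map (γ b)) ≤ ∫ t in a..b, F (γ t) * ‖deriv γ t‖

/-- The volume of the metric `F(x)² |dx|²`. -/
noncomputable def ConfFill.vol {d : ℕ} {M : Type} [MetricSpace M] (S : ConfFill d M) : ENNReal :=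
  ∫⁻ x in ball (0 : E (d + 1)) 1, ENNReal.ofReal (S.F x ^ (d + 1))

/-- Antipodal points of the boundary sphere have distance at least `π` (as they have in every
nonshortcutting filling). -/
def ConfFill.Antipodal {d : ℕ} {M : Type} [MetricSpace M] (S : ConfFill d M) : Prop :=
  ∀ x : E (d + 1), ‖x‖ = 1 → Real.pi ≤ dist (S.map x) (S.map (-x))

end Pool.Agent.H241R3.CF
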