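import Pool.Agent.H241R3.CF.Stmts

set_option autoImplicit false

open MeasureTheory Metric Set Filter Topology Module

namespace Pool.Agent.H241R3.CF.TAvg

open Pool.Agent.H241R3.FV
open Pool.Agent.H892R2.Proj (O haarO)

/-- a linear isometry as an orthogonal matrix -/
theorem exists_mat {n : ℕ} (L : FV.E n ≃ₗᵢ[ℝ] FV.E n) : ∃ k : O n, ∀ w, ga k w = L w := by
  set b : OrthonormalBasis (Fin n) ℝ (FV.E n) := (EuclideanSpace.basisFun (Fin n) ℝ).map L with hb
  set M : Matrix (Fin n) (Fin n) ℝ := (EuclideanSpace.basisFun (Fin n) ℝ).toBasis.toMatrix b with hM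
  have hMo : M ∈ Matrix.orthogonalGroup (Fin n) ℝ :=
    OrthonormalBasis.toMatrix_orthonormalBasis_mem_orthogonal _ _
  have hMe : ∀ i j, M i j = (L (EuclideanSpace.single j 1) : FV.E n) i := by
    intro i j
    rw [hM, Basis.toMatrix_apply]
    simp [hb]
  refine ⟨⟨M, hMo⟩, fun w => ?_⟩
  have h1 : w = ∑ j, w j • (EuclideanSpace.single j (1 : ℝ) : FV.E n) := by
    have := (EuclideanSpace.basisFun (Fin n) ℝ).sum_repr w
    simpa using this.symm
  have h2 : L w = ∑ j, w j • L (EuclideanSpace.single j (1 : ℝ)) := by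
    conv_lhs => rw [h1]
    simp only [map_sum, map_smul]
  rw [h2]
  ext i
  simp only [ga, act, hMe]
  rw [WithLp.ofLp_sum, Finset.sum_apply]
  refine Finset.sum_congr rfl fun j _ => ?_
  simp [mul_comm]

theorem ga_mul {n : ℕ} (g k : O n) (w : FV.E n) : ga (g * k) w = ga g (ga k w) := by
  ext i
  simp only [ga, act]
  have : ∀ j, (g * k).1 i j = ∑ l, g.1 i l * k.1 l j := fun j => rfl
  simp only [this, Finset.sum_mul, Finset.mul_sum]
  rw [Finset.sum_comm]
  refine Finset.sum_congr rfl fun l _ => Finset.sum_congr rfl fun j _ => ?_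
  ring

theorem taskAvg : Pool.Agent.H241R3.CF.TaskAvg := by
  intro d h v w hvw
  obtain ⟨k, hk⟩ := exists_mat ((ℝ ∙ (w - v))ᗮ.reflection)
  have h1 : ga k w = v := by
    rw [hk, Submodule.reflection_sub hvw.symm]
  have h2 := Pool.Agent.H892R2.Proj.right_inv (fun g => h (ga g w)) k
  unfold Pool.Agent.H892R2.Proj.I at h2
  rw [← h2]
  simp only [ga_mul, h1]

end Pool.Agent.H241R3.CF.TAvg
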