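import Pool.Agent.H241R3.CF.Stmts

/-!
# Conformally flat fillings: continuity and positivity of `psi`
-/

set_option autoImplicit false

open MeasureTheory Metric Set Filter Topology

namespace Pool.Agent.H241R3.CF.TCont

open Pool.Agent.H241R3.FV Pool.Agent.H241R3.CF
open Pool.Agent.H892R2.Proj (O haarO)

/-- the first column of an orthogonal matrix -/
noncomputable def col {d : ℕ} (g : O (d + 1)) : FV.E (d + 1) := WithLp.toLp 2 (fun i => g.1 i 0)

theorem norm_col {d : ℕ} (g : O (d + 1)) : ‖col g‖ = 1 := by
  rw [EuclideanSpace.norm_eq]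
  have h := Pool.Agent.H892R2.Proj.col_sq g 0 0
  rw [if_pos rfl] at h
  have h2 : ∑ i, ‖(col g) i‖ ^ 2 = 1 := by
    rw [← h]
    refine Finset.sum_congr rfl fun i _ => ?_
    rw [Real.norm_eq_abs, sq_abs, sq]
    rfl
  rw [h2, Real.sqrt_one]

theorem continuous_col {d : ℕ} : Continuous (col : O (d + 1) → FV.E (d + 1)) := by
  unfold col
  refine (PiLp.continuous_toLp 2 _).comp ?_
  exact continuous_pi fun i => Pool.Agent.H892R2.Proj.entry_cont i 0

theorem ga_eq {d : ℕ} (g : O (d + 1)) (c : ℝ) :
    ga g (c • EuclideanSpace.single 0 1) = c • col g := by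
  ext i
  change ∑ j, g.1 i j * ((c • EuclideanSpace.single (0 : Fin (d + 1)) (1 : ℝ) : FV.E (d + 1)) j) =
    c * g.1 i 0
  rw [Finset.sum_eq_single 0]
  · simp [mul_comm]
  · intro j _ hj
    simp [hj]
  · intro h
    exact absurd (Finset.mem_univ _) h

theorem mem_ann {d : ℕ} (g : O (d + 1)) (t : ℝ) (ht : t ≤ 0) :
    Real.exp t • col g ∈ closedBall (0 : FV.E (d + 1)) 1 \ {0} := by
  have h1 : ‖Real.exp t • col g‖ = Real.exp t := by
    rw [norm_smul, norm_col, mul_one, Real.norm_eq_abs, abs_of_pos (Real.exp_pos t)]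
  constructor
  · rw [mem_closedBall_zero_iff, h1]
    exact Real.exp_le_one_iff.2 ht
  · rw [mem_singleton_iff, ← norm_eq_zero, h1]
    exact (Real.exp_pos t).ne'

theorem taskCont : TaskCont := by
  intro d F hF hpos
  have hcont : Continuous (Function.uncurry fun (t : Iic (0 : ℝ)) (g : O (d + 1)) =>
      F (Real.exp t • col g)) := by
    have h1 : Continuous fun q : Iic (0 : ℝ) × O (d + 1) =>
        (⟨Real.exp q.1 • col q.2, mem_ann q.2 q.1 q.1.2⟩ :
          ((closedBall (0 : FV.E (d + 1)) 1 \ {0} : Set (FV.E (d + 1))))) := by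
      refine Continuous.subtype_mk ?_ _
      exact (Real.continuous_exp.comp (continuous_subtype_val.comp continuous_fst)).smul
        (continuous_col.comp continuous_snd)
    exact (continuousOn_iff_continuous_domRestrict.1 hF).comp h1
  constructor
  · rw [continuousOn_iff_continuous_domRestrict]
    have hlc : LocallyCompactSpace (Iic (0 : ℝ)) := isClosed_Iic.locallyCompactSpace
    have h2 : Continuous fun t : Iic (0 : ℝ) => ∫ g in (univ : Set (O (d + 1))),
        F (Real.exp t • col g) ∂(haarO (d + 1)) :=
      continuous_parametric_integral_of_continuous hcont isCompact_univ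
    have h3 : Continuous fun t : Iic (0 : ℝ) => Real.exp t * ∫ g in (univ : Set (O (d + 1))),
        F (Real.exp t • col g) ∂(haarO (d + 1)) :=
      (Real.continuous_exp.comp continuous_subtype_val).mul h2
    refine h3.congr fun t => ?_
    change _ = psi F t
    unfold psi
    rw [setIntegral_univ]
    simp only [ga_eq]
  · intro t ht
    unfold psi
    refine mul_pos (Real.exp_pos t) ?_
    simp only [ga_eq]
    have hc : Continuous fun g : O (d + 1) => F (Real.exp t • col g) :=
      hcont.comp (Continuous.prodMk_right (⟨t, ht⟩ : Iic (0 : ℝ)))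
    exact hc.integral_pos_of_hasCompactSupport_nonneg_nonzero (x := 1)
      (HasCompactSupport.of_compactSpace _) (fun g => (hpos _ (mem_ann g t ht)).le)
      (hpos _ (mem_ann 1 t ht)).ne'

end Pool.Agent.H241R3.CF.TCont
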