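import Pool.Agent.H241R3.CF.Stmts

/-!
# Conformally flat fillings: layer cake
-/

set_option autoImplicit false

open MeasureTheory Metric Set Filter Topology InnerProductGeometry

namespace Pool.Agent.H241R3.CF.TLayer

open Pool.Agent.H241R3.CF

theorem inner (d : ℕ) (hd : 1 ≤ d) (y : ℝ) (hy : 0 < y) :
    ∫⁻ s in Ioi (0 : ℝ), ENNReal.ofReal (s ^ (d - 1)) * ENNReal.ofReal √(y ^ 2 - s ^ 2) =
      ENNReal.ofReal (kap d) * ENNReal.ofReal (y ^ (d + 1)) := by
  have hG : Continuous fun s : ℝ => s ^ (d - 1) * √(y ^ 2 - s ^ 2) := by fun_prop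
  have h1 : ∫⁻ s in Ioi (0 : ℝ), ENNReal.ofReal (s ^ (d - 1)) * ENNReal.ofReal √(y ^ 2 - s ^ 2) =
      ∫⁻ s in Ioc (0 : ℝ) y, ENNReal.ofReal (s ^ (d - 1) * √(y ^ 2 - s ^ 2)) := by
    have hdisj : Disjoint (Ioc (0 : ℝ) y) (Ioi y) := by
      rw [Set.disjoint_left]
      intro x hx hx2
      exact absurd hx.2 (not_le.2 hx2)
    rw [← Ioc_union_Ioi_eq_Ioi hy.le, lintegral_union measurableSet_Ioi hdisj]
    have h2 : ∫⁻ s in Ioi y, ENNReal.ofReal (s ^ (d - 1)) * ENNReal.ofReal √(y ^ 2 - s ^ 2) = 0 := by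
      rw [setLIntegral_congr_fun (g := fun _ => 0) measurableSet_Ioi]
      · simp
      · intro s hs
        have hs' : y < s := hs
        have h3 : √(y ^ 2 - s ^ 2) = 0 := by
          apply Real.sqrt_eq_zero_of_nonpos
          nlinarith
        simp only [h3, ENNReal.ofReal_zero, mul_zero]
    rw [h2, add_zero]
    refine setLIntegral_congr_fun measurableSet_Ioc fun s hs => ?_
    have hs0 : 0 < s := hs.1
    show ENNReal.ofReal (s ^ (d - 1)) * ENNReal.ofReal √(y ^ 2 - s ^ 2) =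
      ENNReal.ofReal (s ^ (d - 1) * √(y ^ 2 - s ^ 2))
    rw [ENNReal.ofReal_mul (by positivity)]
  rw [h1]
  have h2 : ∫⁻ s in Ioc (0 : ℝ) y, ENNReal.ofReal (s ^ (d - 1) * √(y ^ 2 - s ^ 2)) =
      ENNReal.ofReal (∫ s in (0 : ℝ)..y, s ^ (d - 1) * √(y ^ 2 - s ^ 2)) := by
    rw [intervalIntegral.integral_of_le hy.le, ofReal_integral_eq_lintegral_ofReal]
    · exact hG.integrableOn_Ioc
    · rw [Filter.EventuallyLE, ae_restrict_iff' measurableSet_Ioc]
      refine Filter.Eventually.of_forall fun s hs => ?_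
      have hs0 : 0 < s := hs.1
      show 0 ≤ s ^ (d - 1) * √(y ^ 2 - s ^ 2)
      positivity
  have h3 : ∫ s in (0 : ℝ)..y, s ^ (d - 1) * √(y ^ 2 - s ^ 2) = kap d * y ^ (d + 1) := by
    have h4 := intervalIntegral.mul_integral_comp_mul_left (a := 0) (b := 1)
      (f := fun s : ℝ => s ^ (d - 1) * √(y ^ 2 - s ^ 2)) y
    rw [mul_zero, mul_one] at h4
    rw [← h4]
    have h5 : ∀ u : ℝ, (y * u) ^ (d - 1) * √(y ^ 2 - (y * u) ^ 2) =
        y ^ d * (u ^ (d - 1) * √(1 - u ^ 2)) := by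
      intro u
      have h6 : y ^ 2 - (y * u) ^ 2 = y ^ 2 * (1 - u ^ 2) := by ring
      rw [h6, Real.sqrt_mul (by positivity), Real.sqrt_sq hy.le, mul_pow]
      have h7 : y ^ d = y ^ (d - 1) * y := by
        rw [← pow_succ, Nat.sub_add_cancel hd]
      rw [h7]
      ring
    simp only [h5]
    rw [intervalIntegral.integral_const_mul]
    unfold kap
    ring
  rw [h2, h3, ENNReal.ofReal_mul]
  unfold kap
  refine intervalIntegral.integral_nonneg zero_le_one fun u hu => ?_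
  have hu0 : 0 ≤ u := hu.1
  positivity

theorem taskLayer : TaskLayer := by
  intro d hd ψ hψ hpos
  have hm : AEMeasurable ψ (volume.restrict (Iic (0 : ℝ))) := hψ.aemeasurable measurableSet_Iic
  have h1 : ∫⁻ s in Ioi (0 : ℝ), ENNReal.ofReal (s ^ (d - 1)) *
      (∫⁻ t in Iic (0 : ℝ), ENNReal.ofReal √(ψ t ^ 2 - s ^ 2)) =
      ∫⁻ s in Ioi (0 : ℝ), ∫⁻ t in Iic (0 : ℝ), ENNReal.ofReal (s ^ (d - 1)) *
        ENNReal.ofReal √(ψ t ^ 2 - s ^ 2) := by
    refine lintegral_congr fun s => ?_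
    rw [lintegral_const_mul' _ _ ENNReal.ofReal_ne_top]
  rw [h1, lintegral_lintegral_swap]
  · have h2 : ∫⁻ t in Iic (0 : ℝ), ∫⁻ s in Ioi (0 : ℝ), ENNReal.ofReal (s ^ (d - 1)) *
        ENNReal.ofReal √(ψ t ^ 2 - s ^ 2) =
        ∫⁻ t in Iic (0 : ℝ), ENNReal.ofReal (kap d) * ENNReal.ofReal (ψ t ^ (d + 1)) := by
      refine setLIntegral_congr_fun measurableSet_Iic fun t ht => ?_
      exact inner d hd (ψ t) (hpos t ht)
    rw [h2, lintegral_const_mul' _ _ ENNReal.ofReal_ne_top]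
  · have e1 : AEMeasurable (fun p : ℝ × ℝ => ψ p.2)
        ((volume.restrict (Ioi (0 : ℝ))).prod (volume.restrict (Iic (0 : ℝ)))) :=
      hm.comp_quasiMeasurePreserving Measure.quasiMeasurePreserving_snd
    have e2 : Measurable (fun p : ℝ × ℝ => ENNReal.ofReal (p.1 ^ (d - 1))) := by fun_prop
    have e3 : AEMeasurable (fun p : ℝ × ℝ => ENNReal.ofReal √(ψ p.2 ^ 2 - p.1 ^ 2))
        ((volume.restrict (Ioi (0 : ℝ))).prod (volume.restrict (Iic (0 : ℝ)))) := by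
      have e4 : AEMeasurable (fun p : ℝ × ℝ => p.1 ^ 2)
          ((volume.restrict (Ioi (0 : ℝ))).prod (volume.restrict (Iic (0 : ℝ)))) :=
        (measurable_fst.pow_const 2).aemeasurable
      have e6 : AEMeasurable (fun p : ℝ × ℝ => ψ p.2 ^ 2 - p.1 ^ 2)
          ((volume.restrict (Ioi (0 : ℝ))).prod (volume.restrict (Iic (0 : ℝ)))) :=
        (e1.pow_const 2).sub e4
      exact e6.sqrt.ennreal_ofReal
    have e5 : AEMeasurable (fun p : ℝ × ℝ => ENNReal.ofReal (p.1 ^ (d - 1)) *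
        ENNReal.ofReal √(ψ p.2 ^ 2 - p.1 ^ 2))
        ((volume.restrict (Ioi (0 : ℝ))).prod (volume.restrict (Iic (0 : ℝ)))) :=
      e2.aemeasurable.mul e3
    exact e5

end Pool.Agent.H241R3.CF.TLayer
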