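import Pool.Agent.H241R3.CF.Stmts

/-!
# The length of a rotated curve, averaged over the rotations
-/

set_option autoImplicit false

open MeasureTheory Metric Set Filter Topology

namespace Pool.Agent.H241R3.CF.TLen

open Pool.Agent.H241R3.FV
open Pool.Agent.H892R2.Proj (O haarO col_sq entry_cont)
open Pool.Agent.H241R3.CF

theorem ga_add {n : ℕ} (g : O n) (v w : FV.E n) : ga g (v + w) = ga g v + ga g w := by
  ext i
  simp [ga, act, mul_add, Finset.sum_add_distrib]

theorem ga_smul {n : ℕ} (g : O n) (c : ℝ) (v : FV.E n) : ga g (c • v) = c • ga g v := by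
  ext i
  simp [ga, act, Finset.mul_sum, mul_left_comm]

theorem norm_ga {n : ℕ} (g : O n) (v : FV.E n) : ‖ga g v‖ = ‖v‖ := by
  rw [EuclideanSpace.norm_eq, EuclideanSpace.norm_eq]
  congr 1
  simp only [Real.norm_eq_abs, sq_abs, ga, act]
  have h1 : ∀ i : Fin n, (∑ j, g.1 i j * v j) ^ 2 =
      ∑ j, ∑ k, (g.1 i j * g.1 i k) * (v j * v k) := by
    intro i
    rw [sq, Finset.sum_mul_sum]
    refine Finset.sum_congr rfl fun j _ => Finset.sum_congr rfl fun k _ => ?_
    ring
  simp only [h1]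
  rw [Finset.sum_comm]
  refine Finset.sum_congr rfl fun j _ => ?_
  rw [Finset.sum_comm]
  have h2 : ∀ k : Fin n, ∑ i, (g.1 i j * g.1 i k) * (v j * v k) =
      (if j = k then 1 else 0) * (v j * v k) := by
    intro k
    rw [← Finset.sum_mul, col_sq]
  simp only [h2]
  simp [sq]

theorem continuous_ga {n : ℕ} : Continuous (fun p : O n × FV.E n => ga p.1 p.2) := by
  unfold ga act
  refine (PiLp.continuous_toLp 2 _).comp (continuous_pi fun i => ?_)
  refine continuous_finsetSum _ fun j _ => ?_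
  refine ((entry_cont i j).comp continuous_fst).mul ?_
  exact (EuclideanSpace.proj (𝕜 := ℝ) j).continuous.comp continuous_snd

/-- first vector -/
noncomputable def e0 (d : ℕ) : FV.E (d + 1) := EuclideanSpace.single (0 : Fin (d + 1)) (1 : ℝ)

/-- second vector -/
noncomputable def e1 (d : ℕ) (hd : 1 ≤ d) : FV.E (d + 1) :=
  EuclideanSpace.single (⟨1, by omega⟩ : Fin (d + 1)) (1 : ℝ)

section
variable {d : ℕ} (hd : 1 ≤ d)

include hd in
theorem norm_comb (A B : ℝ) : ‖A • e0 d + B • e1 d hd‖ = √(A ^ 2 + B ^ 2) := by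
  have h1 : inner ℝ (A • e0 d) (B • e1 d hd) = 0 := by
    rw [inner_smul_left, inner_smul_right]
    have : inner ℝ (e0 d) (e1 d hd) = (0 : ℝ) := by
      unfold e0 e1
      rw [EuclideanSpace.inner_single_left]
      simp [Fin.ext_iff]
    rw [this]
    simp
  have h2 := norm_add_sq_eq_norm_sq_add_norm_sq_real h1
  have h3 : ‖A • e0 d‖ * ‖A • e0 d‖ = A ^ 2 := by
    rw [norm_smul]
    have : ‖e0 d‖ = 1 := by simp [e0]
    rw [this, mul_one, Real.norm_eq_abs, ← sq, sq_abs]
  have h4 : ‖B • e1 d hd‖ * ‖B • e1 d hd‖ = B ^ 2 := by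
    rw [norm_smul]
    have : ‖e1 d hd‖ = 1 := by simp [e1]
    rw [this, mul_one, Real.norm_eq_abs, ← sq, sq_abs]
  rw [h3, h4] at h2
  rw [← h2, ← sq, Real.sqrt_sq (norm_nonneg _)]

theorem norm_pt (t θ : ℝ) : ‖pt hd t θ‖ = Real.exp t := by
  have := norm_comb hd (Real.exp t * Real.cos θ) (Real.exp t * Real.sin θ)
  unfold pt
  unfold e0 e1 at this
  rw [this]
  have h : (Real.exp t * Real.cos θ) ^ 2 + (Real.exp t * Real.sin θ) ^ 2 = Real.exp t ^ 2 := by
    rw [mul_pow, mul_pow, ← mul_add, Real.cos_sq_add_sin_sq, mul_one]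
  rw [h, Real.sqrt_sq (Real.exp_pos t).le]

theorem norm_deriv (g : O (d + 1)) (T Θ : ℝ → ℝ) (hT : Differentiable ℝ T)
    (hΘ : Differentiable ℝ Θ) (t : ℝ) :
    ‖deriv (fun t => ga g (pt hd (T t) (Θ t))) t‖ =
      Real.exp (T t) * √(deriv T t ^ 2 + deriv Θ t ^ 2) := by
  have h0 : (fun t => ga g (pt hd (T t) (Θ t))) = fun t =>
      (Real.exp (T t) * Real.cos (Θ t)) • ga g (e0 d) +
        (Real.exp (T t) * Real.sin (Θ t)) • ga g (e1 d hd) := by
    funext t
    unfold pt
    rw [ga_add, ga_smul, ga_smul]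
    rfl
  have hT' := (hT t).hasDerivAt
  have hΘ' := (hΘ t).hasDerivAt
  have h1 := hT'.exp.mul hΘ'.cos
  have h2 := hT'.exp.mul hΘ'.sin
  have h3 := (h1.smul_const (ga g (e0 d))).add (h2.smul_const (ga g (e1 d hd)))
  rw [h0]
  have h4 := h3.deriv
  simp only [Pi.add_def, Pi.mul_def] at h4
  rw [h4, ← ga_smul, ← ga_smul, ← ga_add, norm_ga, norm_comb]
  have h5 : (Real.exp (T t) * deriv T t * Real.cos (Θ t) +
      Real.exp (T t) * (-Real.sin (Θ t) * deriv Θ t)) ^ 2 +
      (Real.exp (T t) * deriv T t * Real.sin (Θ t) +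
      Real.exp (T t) * (Real.cos (Θ t) * deriv Θ t)) ^ 2 =
      Real.exp (T t) ^ 2 * (deriv T t ^ 2 + deriv Θ t ^ 2) := by
    have := Real.cos_sq_add_sin_sq (Θ t)
    calc _ = Real.exp (T t) ^ 2 * (deriv T t ^ 2 + deriv Θ t ^ 2) *
        (Real.cos (Θ t) ^ 2 + Real.sin (Θ t) ^ 2) := by ring
      _ = _ := by rw [this, mul_one]
  rw [h5, Real.sqrt_mul (sq_nonneg _), Real.sqrt_sq (Real.exp_pos _).le]

theorem continuous_pt : Continuous (fun p : ℝ × ℝ => pt hd p.1 p.2) := by
  unfold pt
  fun_prop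

end

theorem taskLen : Pool.Agent.H241R3.CF.TaskLen := by
  intro hAvg d hd F hF a b T Θ hab hT hΘ hneg
  have hTd : Differentiable ℝ T := hT.differentiable (by norm_num)
  have hΘd : Differentiable ℝ Θ := hΘ.differentiable (by norm_num)
  have hTc : Continuous (deriv T) := hT.continuous_deriv (by norm_num)
  have hΘc : Continuous (deriv Θ) := hΘ.continuous_deriv (by norm_num)
  -- the weight
  set W : ℝ → ℝ := fun t => Real.exp (T t) * √(deriv T t ^ 2 + deriv Θ t ^ 2) with hW
  have hWc : Continuous W := by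
    have := hT.continuous
    fun_prop
  simp only [norm_deriv hd _ T Θ hTd hΘd]
  -- a continuous function on the compact space
  let c : ℝ → ℝ := fun t => (projIcc a b hab t : ℝ)
  have hc : Continuous c := continuous_subtype_val.comp continuous_projIcc
  have hcm : ∀ t, c t ∈ Icc a b := fun t => (projIcc a b hab t).2
  have hce : ∀ t ∈ Icc a b, c t = t := fun t ht => by
    simp only [c]
    rw [projIcc_of_mem hab ht]
  let G : O (d + 1) × ℝ → ℝ := fun p => F (ga p.1 (pt hd (T (c p.2)) (Θ (c p.2)))) * W (c p.2)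
  have hmem : ∀ p : O (d + 1) × ℝ, ga p.1 (pt hd (T (c p.2)) (Θ (c p.2))) ∈
      closedBall (0 : FV.E (d + 1)) 1 \ {0} := by
    intro p
    have h1 : ‖ga p.1 (pt hd (T (c p.2)) (Θ (c p.2)))‖ = Real.exp (T (c p.2)) := by
      rw [norm_ga, norm_pt]
    refine ⟨?_, ?_⟩
    · rw [mem_closedBall_zero_iff, h1]
      exact Real.exp_le_one_iff.mpr (hneg _ (hcm _))
    · intro h
      rw [mem_singleton_iff] at h
      rw [h, norm_zero] at h1
      exact (Real.exp_pos _).ne h1
  have hGc : Continuous G := by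
    refine Continuous.mul ?_ (hWc.comp (hc.comp continuous_snd))
    refine hF.comp_continuous ?_ hmem
    have hp : Continuous (fun p : O (d + 1) × ℝ => pt hd (T (c p.2)) (Θ (c p.2))) :=
      (continuous_pt hd).comp ((hT.continuous.comp (hc.comp continuous_snd)).prodMk
        (hΘ.continuous.comp (hc.comp continuous_snd)))
    exact continuous_ga.comp (continuous_fst.prodMk hp)
  -- boundedness
  obtain ⟨C, hC⟩ : ∃ C, ∀ p, ‖G p‖ ≤ C := by
    have hcomp : IsCompact ((univ : Set (O (d + 1))) ×ˢ Icc a b) := isCompact_univ.prod isCompact_Icc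
    obtain ⟨C, hC⟩ := hcomp.exists_bound_of_continuousOn hGc.continuousOn
    refine ⟨C, fun p => ?_⟩
    have h1 := hC (p.1, c p.2) ⟨mem_univ _, hcm _⟩
    have h2 : G (p.1, c p.2) = G p := by
      simp only [G, hce _ (hcm p.2)]
    rwa [h2] at h1
  have hGi : Integrable G ((haarO (d + 1)).prod (volume.restrict (Ioc a b))) :=
    Integrable.of_bound hGc.aestronglyMeasurable C (Eventually.of_forall hC)
  have hcongr : ∀ g : O (d + 1), ∫ t in a..b, F (ga g (pt hd (T t) (Θ t))) * W t =
      ∫ t in Ioc a b, G (g, t) := by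
    intro g
    rw [intervalIntegral.integral_of_le hab]
    refine setIntegral_congr_fun measurableSet_Ioc fun t ht => ?_
    simp only [G, hce t (Ioc_subset_Icc_self ht)]
  constructor
  · have := hGi.integral_prod_left
    refine this.congr (Eventually.of_forall fun g => ?_)
    exact (hcongr g).symm
  · have h1 : ∫ g : O (d + 1), (∫ t in a..b, F (ga g (pt hd (T t) (Θ t))) * W t)
        ∂(haarO (d + 1)) = ∫ g : O (d + 1), (∫ t in Ioc a b, G (g, t)) ∂(haarO (d + 1)) :=
      integral_congr_ae (Eventually.of_forall hcongr)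
    have h2 : ∫ g : O (d + 1), (∫ t in Ioc a b, G (g, t)) ∂(haarO (d + 1)) =
        ∫ t in Ioc a b, (∫ g : O (d + 1), G (g, t) ∂(haarO (d + 1))) :=
      integral_integral_swap hGi
    refine h1.trans (h2.trans ?_)
    rw [intervalIntegral.integral_of_le hab]
    refine setIntegral_congr_fun measurableSet_Ioc fun t ht => ?_
    simp only [G, hce t (Ioc_subset_Icc_self ht)]
    rw [integral_mul_const]
    have h3 := hAvg d F (pt hd (T t) (Θ t)) (Real.exp (T t) • EuclideanSpace.single 0 1) (by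
      rw [norm_pt, norm_smul, Real.norm_eq_abs, abs_of_pos (Real.exp_pos _)]
      simp)
    rw [h3]
    simp only [psi, hW]
    ring

end Pool.Agent.H241R3.CF.TLen
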