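import Pool.Agent.H241R3.CF.Stmts

/-!
# The one-dimensional inequality
-/

set_option autoImplicit false

open MeasureTheory Metric Set Filter Topology

namespace Pool.Agent.H241R3.CF.TOne

open Pool.Agent.H241R3.CF

theorem alg (s y : ℝ) (hs : 0 < s) (hy : s < y) :
    y * √(1 + (s / √(y ^ 2 - s ^ 2)) ^ 2) =
      √(y ^ 2 - s ^ 2) + s * (s / √(y ^ 2 - s ^ 2)) := by
  have h0 : 0 < y ^ 2 - s ^ 2 := by nlinarith
  have h1 : 0 < √(y ^ 2 - s ^ 2) := Real.sqrt_pos.2 h0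
  have h2 : √(y ^ 2 - s ^ 2) ^ 2 = y ^ 2 - s ^ 2 := Real.sq_sqrt h0.le
  have h3 : 1 + (s / √(y ^ 2 - s ^ 2)) ^ 2 = (y / √(y ^ 2 - s ^ 2)) ^ 2 := by
    rw [div_pow, div_pow, h2]
    field_simp
    ring
  rw [h3, Real.sqrt_sq (div_nonneg (by linarith) h1.le)]
  generalize √(y ^ 2 - s ^ 2) = q at h1 h2
  have hq : q ≠ 0 := h1.ne'
  have h4 : y ^ 2 = q ^ 2 + s ^ 2 := by linarith
  field_simp
  linarith

theorem core (ψ : ℝ → ℝ) (hc : ContinuousOn ψ (Iic 0)) (hP : PsiCond ψ) (s d : ℝ) (hs : 0 < s)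
    (hd : 0 < d) (h : ∃ r : ℝ, 0 ≤ r ∧ ψ (-r) ≤ s + d) :
    ∃ a : ℝ, 0 ≤ a ∧
      (1 - s - d) * (Real.pi / 2) ≤ ∫ r in (0 : ℝ)..a, √(ψ (-r) ^ 2 - s ^ 2) := by
  have hpi := Real.pi_pos
  have hcK : ContinuousOn (fun r : ℝ => ψ (-r)) (Ici 0) :=
    hc.comp continuous_neg.continuousOn (fun r hr => by simpa using hr)
  obtain ⟨r1, h10, h1K, hlt⟩ : ∃ r1 : ℝ, 0 ≤ r1 ∧ ψ (-r1) ≤ s + d ∧
      ∀ r, 0 ≤ r → r < r1 → s + d < ψ (-r) := by
    have hKcl : IsClosed (Ici (0 : ℝ) ∩ (fun r : ℝ => ψ (-r)) ⁻¹' (Iic (s + d))) :=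
      hcK.preimage_isClosed_of_isClosed isClosed_Ici isClosed_Iic
    have hKne : (Ici (0 : ℝ) ∩ (fun r : ℝ => ψ (-r)) ⁻¹' (Iic (s + d))).Nonempty := by
      obtain ⟨r, hr0, hr⟩ := h
      exact ⟨r, hr0, hr⟩
    have hKbd : BddBelow (Ici (0 : ℝ) ∩ (fun r : ℝ => ψ (-r)) ⁻¹' (Iic (s + d))) :=
      ⟨0, fun r hr => hr.1⟩
    have hmem := hKcl.csInf_mem hKne hKbd
    refine ⟨_, hmem.1, hmem.2, fun r h0 h1 => ?_⟩
    by_contra hcon
    exact absurd (csInf_le hKbd ⟨h0, not_lt.1 hcon⟩) (not_le.2 h1)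
  -- the clamped function
  obtain ⟨y, hyc, hysd, hyeq⟩ : ∃ y : ℝ → ℝ, Continuous y ∧ (∀ r, s + d ≤ y r) ∧
      ∀ r, 0 ≤ r → r < r1 → ψ (-r) = y r := by
    refine ⟨fun r => max (ψ (-(max 0 (min r r1)))) (s + d), ?_, fun r => le_max_right _ _, ?_⟩
    · refine Continuous.max ?_ continuous_const
      refine hc.comp_continuous (by fun_prop) (fun r => ?_)
      simp
    · intro r h0 h1
      have e1 : min r r1 = r := min_eq_left h1.le
      have e2 : max 0 r = r := max_eq_right h0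
      simp only [e1, e2]
      exact (max_eq_left (hlt r h0 h1).le).symm
  have hys : ∀ r, s < y r := fun r => by linarith [hysd r]
  have hy0 : ∀ r, 0 < y r ^ 2 - s ^ 2 := fun r => by nlinarith [hys r]
  have hq0 : ∀ r, 0 < √(y r ^ 2 - s ^ 2) := fun r => Real.sqrt_pos.2 (hy0 r)
  have hqc : Continuous (fun r => √(y r ^ 2 - s ^ 2)) := by fun_prop
  have hpc : Continuous (fun r => s / √(y r ^ 2 - s ^ 2)) :=
    continuous_const.div hqc (fun r => (hq0 r).ne')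
  -- the almost everywhere identity
  have hae : ∀ a : ℝ, 0 ≤ a → a ≤ r1 → ∀ᵐ r ∂(volume : Measure ℝ), r ∈ uIoc 0 a →
      ψ (-r) = y r := by
    intro a ha ha1
    have hne : ({r1} : Set ℝ)ᶜ ∈ ae (volume : Measure ℝ) :=
      compl_mem_ae_iff.mpr (measure_singleton r1)
    filter_upwards [hne] with r hr hra
    rw [uIoc_of_le ha] at hra
    exact hyeq r hra.1.le (lt_of_le_of_ne (hra.2.trans ha1) hr)
  have hint : ∀ a : ℝ, 0 ≤ a → a ≤ r1 →
      (∫ r in (0 : ℝ)..a, ψ (-r) * √(1 + (s / √(y r ^ 2 - s ^ 2)) ^ 2)) =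
        (∫ r in (0 : ℝ)..a, √(ψ (-r) ^ 2 - s ^ 2)) +
          s * ∫ r in (0 : ℝ)..a, s / √(y r ^ 2 - s ^ 2) := by
    intro a ha ha1
    have e1 : (∫ r in (0 : ℝ)..a, ψ (-r) * √(1 + (s / √(y r ^ 2 - s ^ 2)) ^ 2)) =
        ∫ r in (0 : ℝ)..a, (√(y r ^ 2 - s ^ 2) + s * (s / √(y r ^ 2 - s ^ 2))) := by
      refine intervalIntegral.integral_congr_ae ?_
      filter_upwards [hae a ha ha1] with r hr hra
      rw [hr hra]
      exact alg s (y r) hs (hys r)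
    have e2 : (∫ r in (0 : ℝ)..a, √(ψ (-r) ^ 2 - s ^ 2)) =
        ∫ r in (0 : ℝ)..a, √(y r ^ 2 - s ^ 2) := by
      refine intervalIntegral.integral_congr_ae ?_
      filter_upwards [hae a ha ha1] with r hr hra
      rw [hr hra]
    have hspc : Continuous (fun r => s * (s / √(y r ^ 2 - s ^ 2))) := continuous_const.mul hpc
    rw [e1, e2, intervalIntegral.integral_add (hqc.intervalIntegrable _ _)
      (hspc.intervalIntegrable _ _), intervalIntegral.integral_const_mul]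
  by_cases hA : Real.pi / 2 ≤ ∫ r in (0 : ℝ)..r1, s / √(y r ^ 2 - s ^ 2)
  · -- stop when the angle is used up
    have hcont : ContinuousOn (fun a : ℝ => ∫ r in (0 : ℝ)..a, s / √(y r ^ 2 - s ^ 2))
        (Icc 0 r1) := by
      refine Continuous.continuousOn ?_
      exact intervalIntegral.continuous_primitive (fun a b => hpc.intervalIntegrable _ _) 0
    have hivt := intermediate_value_Icc h10 hcont
    have hmem : Real.pi / 2 ∈ Icc (∫ r in (0 : ℝ)..0, s / √(y r ^ 2 - s ^ 2))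
        (∫ r in (0 : ℝ)..r1, s / √(y r ^ 2 - s ^ 2)) := by
      refine ⟨?_, hA⟩
      rw [intervalIntegral.integral_same]
      positivity
    obtain ⟨a, ha, hae2⟩ := hivt hmem
    have hae3 : (∫ r in (0 : ℝ)..a, s / √(y r ^ 2 - s ^ 2)) = Real.pi / 2 := hae2
    refine ⟨a, ha.1, ?_⟩
    have hP1 := hP a 0 (fun r => s / √(y r ^ 2 - s ^ 2)) ha.1 le_rfl hpc (by
      rw [hae3]; ring)
    have hP2 := hint a ha.1 ha.2
    rw [hP2, hae3] at hP1
    nlinarith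
  · have hA' := not_le.1 hA
    refine ⟨r1, h10, ?_⟩
    have hA0 : 0 ≤ ∫ r in (0 : ℝ)..r1, s / √(y r ^ 2 - s ^ 2) := by
      refine intervalIntegral.integral_nonneg h10 (fun r _ => ?_)
      exact div_nonneg hs.le (hq0 r).le
    have hP1 := hP r1 (Real.pi - 2 * ∫ r in (0 : ℝ)..r1, s / √(y r ^ 2 - s ^ 2))
      (fun r => s / √(y r ^ 2 - s ^ 2)) h10 (by linarith) hpc (by ring)
    have hP2 := hint r1 h10 le_rfl
    rw [hP2] at hP1
    generalize (∫ r in (0 : ℝ)..r1, s / √(y r ^ 2 - s ^ 2)) = A at hA' hA0 hP1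
    generalize (∫ r in (0 : ℝ)..r1, √(ψ (-r) ^ 2 - s ^ 2)) = G at hP1
    have h5 : ψ (-r1) * (Real.pi - 2 * A) ≤ (s + d) * (Real.pi - 2 * A) :=
      mul_le_mul_of_nonneg_right h1K (by linarith)
    have h6 : 0 ≤ d * A := mul_nonneg hd.le hA0
    nlinarith

theorem le_lint (ψ : ℝ → ℝ) (hc : ContinuousOn ψ (Iic 0)) (s a : ℝ) (ha : 0 ≤ a) :
    ENNReal.ofReal (∫ r in (0 : ℝ)..a, √(ψ (-r) ^ 2 - s ^ 2)) ≤
      ∫⁻ t in Iic (0 : ℝ), ENNReal.ofReal √(ψ t ^ 2 - s ^ 2) := by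
  have e1 : (∫ r in (0 : ℝ)..a, √(ψ (-r) ^ 2 - s ^ 2)) =
      ∫ t in (-a)..0, √(ψ t ^ 2 - s ^ 2) := by
    have := intervalIntegral.integral_comp_neg (a := (0 : ℝ)) (b := a)
      (fun t => √(ψ t ^ 2 - s ^ 2))
    simpa using this
  have hna : -a ≤ 0 := by linarith
  have hco : ContinuousOn (fun t => √(ψ t ^ 2 - s ^ 2)) (Icc (-a) 0) := by
    have : ContinuousOn ψ (Icc (-a) 0) := hc.mono (fun t ht => ht.2)
    exact ((this.pow 2).sub continuousOn_const).sqrt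
  have hii : IntegrableOn (fun t => √(ψ t ^ 2 - s ^ 2)) (Ioc (-a) 0) :=
    (hco.integrableOn_Icc).mono_set Ioc_subset_Icc_self
  rw [e1, intervalIntegral.integral_of_le hna,
    ofReal_integral_eq_lintegral_ofReal hii (Eventually.of_forall fun t => Real.sqrt_nonneg _)]
  exact lintegral_mono_set (fun t ht => ht.2)

theorem taskOne : Pool.Agent.H241R3.CF.TaskOne := by
  intro ψ hc _ hP s hs hs1
  have key : ∀ d : ℝ, 0 < d → ENNReal.ofReal ((1 - s - d) * (Real.pi / 2)) ≤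
      ∫⁻ t in Iic (0 : ℝ), ENNReal.ofReal √(ψ t ^ 2 - s ^ 2) := by
    intro d hd
    by_cases h : ∃ r : ℝ, 0 ≤ r ∧ ψ (-r) ≤ s + d
    · obtain ⟨a, ha, h2⟩ := core ψ hc hP s d hs hd h
      exact (ENNReal.ofReal_le_ofReal h2).trans (le_lint ψ hc s a ha)
    · push Not at h
      have h3 : ∫⁻ t in Iic (0 : ℝ), ENNReal.ofReal √((s + d) ^ 2 - s ^ 2) ≤
          ∫⁻ t in Iic (0 : ℝ), ENNReal.ofReal √(ψ t ^ 2 - s ^ 2) := by
        refine setLIntegral_mono' measurableSet_Iic (fun t ht => ?_)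
        refine ENNReal.ofReal_le_ofReal (Real.sqrt_le_sqrt ?_)
        have h4 := h (-t) (by simpa using ht)
        rw [neg_neg] at h4
        nlinarith
      have h5 : ∫⁻ t in Iic (0 : ℝ), ENNReal.ofReal √((s + d) ^ 2 - s ^ 2) = ⊤ := by
        rw [setLIntegral_const, Real.volume_Iic]
        refine ENNReal.mul_top ?_
        have : 0 < √((s + d) ^ 2 - s ^ 2) := Real.sqrt_pos.2 (by nlinarith)
        simpa using this
      rw [h5] at h3
      rw [top_le_iff.1 h3]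
      exact le_top
  have ht : Tendsto (fun d : ℝ => ENNReal.ofReal ((1 - s - d) * (Real.pi / 2))) (𝓝[>] 0)
      (𝓝 (ENNReal.ofReal ((1 - s - 0) * (Real.pi / 2)))) := by
    have hcc : Continuous (fun d : ℝ => ENNReal.ofReal ((1 - s - d) * (Real.pi / 2))) := by
      refine ENNReal.continuous_ofReal.comp ?_
      fun_prop
    exact (hcc.tendsto 0).mono_left nhdsWithin_le_nhds
  rw [sub_zero] at ht
  refine le_of_tendsto ht ?_
  filter_upwards [self_mem_nhdsWithin] with d hd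
  exact key d hd

end Pool.Agent.H241R3.CF.TOne
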