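import Pool.Agent.H241R3.CF.Stmts

/-! TaskVol of project H241-CF. -/

set_option autoImplicit false

open MeasureTheory Metric Set Filter Topology InnerProductGeometry

namespace Pool.Agent.H241R3.CF.TVol

open Pool.Agent.H241R3.FV Pool.Agent.H241R3.CF
open Pool.Agent.H892R2.Proj (O haarO col_sq)

theorem ga_apply {n : ℕ} (g : O n) (v : FV.E n) (i : Fin n) : ga g v i = ∑ j, g.1 i j * v j := rfl

theorem ga_norm {n : ℕ} (g : O n) (v : FV.E n) : ‖ga g v‖ = ‖v‖ := by
  rw [EuclideanSpace.norm_eq, EuclideanSpace.norm_eq]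
  congr 1
  simp only [Real.norm_eq_abs, sq_abs, ga_apply]
  calc ∑ i, (∑ j, g.1 i j * v j) ^ 2
      = ∑ i, ∑ j, ∑ k, (g.1 i j * g.1 i k) * (v j * v k) := by
        refine Finset.sum_congr rfl fun i _ => ?_
        rw [sq, Finset.sum_mul_sum]
        refine Finset.sum_congr rfl fun j _ => Finset.sum_congr rfl fun k _ => by ring
    _ = ∑ j, ∑ k, (∑ i, g.1 i j * g.1 i k) * (v j * v k) := by
        rw [Finset.sum_comm]
        refine Finset.sum_congr rfl fun j _ => ?_
        rw [Finset.sum_comm]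
        refine Finset.sum_congr rfl fun k _ => ?_
        rw [Finset.sum_mul]
    _ = ∑ j, v j ^ 2 := by
        refine Finset.sum_congr rfl fun j _ => ?_
        simp only [col_sq, ite_mul, one_mul, zero_mul, Finset.sum_ite_eq, Finset.mem_univ, if_true]
        ring

theorem ga_smul {n : ℕ} (g : O n) (r : ℝ) (v : FV.E n) : ga g (r • v) = r • ga g v := by
  ext i
  rw [PiLp.smul_apply, ga_apply, ga_apply, smul_eq_mul, Finset.mul_sum]
  refine Finset.sum_congr rfl fun j _ => ?_
  rw [PiLp.smul_apply, smul_eq_mul]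
  ring

theorem ga_add {n : ℕ} (g : O n) (v w : FV.E n) : ga g (v + w) = ga g v + ga g w := by
  ext i
  rw [PiLp.add_apply, ga_apply, ga_apply, ga_apply, ← Finset.sum_add_distrib]
  refine Finset.sum_congr rfl fun j _ => ?_
  rw [PiLp.add_apply]
  ring

/-- the linear isometry of an orthogonal matrix -/
noncomputable def iso {n : ℕ} (g : O n) : FV.E n ≃ₗᵢ[ℝ] FV.E n :=
  LinearIsometry.toLinearIsometryEquiv
    { toFun := ga g
      map_add' := ga_add g
      map_smul' := ga_smul g
      norm_map' := ga_norm g } rfl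

theorem iso_apply {n : ℕ} (g : O n) (v : FV.E n) : iso g v = ga g v := rfl

theorem ga_cont {n : ℕ} : Continuous (fun p : O n × FV.E n => ga p.1 p.2) := by
  unfold ga FV.act
  refine (PiLp.continuous_toLp 2 _).comp ?_
  refine continuous_pi fun i => continuous_finsetSum _ fun j _ => ?_
  refine Continuous.mul ?_ ?_
  · exact (continuous_subtype_val.matrix_elem i j).comp continuous_fst
  · exact (EuclideanSpace.proj j).continuous.comp continuous_snd

instance secO (n : ℕ) : SecondCountableTopology (O n) := by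
  have : SecondCountableTopology (Matrix (Fin n) (Fin n) ℝ) :=
    inferInstanceAs (SecondCountableTopology (Fin n → Fin n → ℝ))
  exact TopologicalSpace.Subtype.secondCountableTopology _

section
variable {d : ℕ} {F : FV.E (d + 1) → ℝ}

theorem mem_pun {r : ℝ} (hr0 : 0 < r) (hr1 : r ≤ 1) {v : FV.E (d + 1)} (hv : ‖v‖ = 1) (g : O (d + 1)) :
    ga g (r • v) ∈ closedBall (0 : FV.E (d + 1)) 1 \ {0} := by
  have h1 : ‖ga g (r • v)‖ = r := by
    rw [ga_norm, norm_smul, hv, Real.norm_eq_abs, abs_of_pos hr0, mul_one]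
  refine ⟨by rw [mem_closedBall_zero_iff, h1]; exact hr1, ?_⟩
  intro h
  rw [mem_singleton_iff] at h
  rw [h, norm_zero] at h1
  exact hr0.ne h1

theorem cont2 (hF : ContinuousOn F (closedBall 0 1 \ {0})) {r : ℝ} (hr0 : 0 < r) (hr1 : r ≤ 1) :
    Continuous (fun p : O (d + 1) × Sph (d + 1) => F (ga p.1 (r • (p.2 : FV.E (d + 1))))) := by
  refine hF.comp_continuous ?_ ?_
  · exact ga_cont.comp (continuous_fst.prodMk
      ((continuous_const_smul r).comp (continuous_subtype_val.comp continuous_snd)))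
  · intro p
    exact mem_pun hr0 hr1 (by simp) p.1

theorem cont1 (hF : ContinuousOn F (closedBall 0 1 \ {0})) {r : ℝ} (hr0 : 0 < r) (hr1 : r ≤ 1) :
    Continuous (fun u : Sph (d + 1) => F (r • (u : FV.E (d + 1)))) := by
  refine hF.comp_continuous ((continuous_const_smul r).comp continuous_subtype_val) ?_
  intro u
  have hu : ‖(u : FV.E (d + 1))‖ = 1 := by simp
  have h1 : ‖r • (u : FV.E (d + 1))‖ = r := by
    rw [norm_smul, hu, Real.norm_eq_abs, abs_of_pos hr0, mul_one]
  refine ⟨by rw [mem_closedBall_zero_iff, h1]; exact hr1, ?_⟩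
  intro h
  rw [mem_singleton_iff] at h
  rw [h, norm_zero] at h1
  exact hr0.ne h1

theorem sphere_ineq (hInv : TaskInv) (hAvg : TaskAvg)
    (hF : ContinuousOn F (closedBall 0 1 \ {0}))
    (hpos : ∀ x ∈ closedBall (0 : FV.E (d + 1)) 1 \ {0}, 0 < F x) {r : ℝ} (hr0 : 0 < r) (hr1 : r ≤ 1) :
    ENNReal.ofReal ((d + 1 : ℝ) * om (d + 1)) *
      ENNReal.ofReal ((∫ g : O (d + 1), F (ga g (r • EuclideanSpace.single 0 1)) ∂(haarO (d + 1))) ^ (d + 1)) ≤
    ∫⁻ u : Sph (d + 1), ENNReal.ofReal (F (r • (u : FV.E (d + 1))) ^ (d + 1)) ∂(sig (d + 1)) := by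
  have : IsFiniteMeasure (sig (d + 1)) := by unfold sig; infer_instance
  have hsig : sig (d + 1) univ = ENNReal.ofReal ((d + 1 : ℝ) * om (d + 1)) := by
    have h1 : (sig (d + 1)).real univ = (d + 1 : ℝ) * om (d + 1) := by
      unfold sig om
      rw [Measure.toSphere_real_apply_univ]
      simp
    rw [← h1, ofReal_measureReal]
  -- averaging over the group
  have h2 : ∀ g : O (d + 1), ∫⁻ u : Sph (d + 1), ENNReal.ofReal (F (ga g (r • (u : FV.E (d + 1)))) ^ (d + 1)) ∂(sig (d + 1)) =
      ∫⁻ u : Sph (d + 1), ENNReal.ofReal (F (r • (u : FV.E (d + 1))) ^ (d + 1)) ∂(sig (d + 1)) := by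
    intro g
    have h3 := (hInv (d + 1) (by omega) (iso g)).lintegral_comp
      (f := fun u : Sph (d + 1) => ENNReal.ofReal (F (r • (u : FV.E (d + 1))) ^ (d + 1)))
      (((cont1 hF hr0 hr1).pow _).measurable.ennreal_ofReal)
    rw [← h3]
    refine lintegral_congr fun u => ?_
    have h4 : (rot (iso g) u : FV.E (d + 1)) = ga g (u : FV.E (d + 1)) := rfl
    rw [h4, ga_smul]
  have h5 : ∫⁻ u : Sph (d + 1), ENNReal.ofReal (F (r • (u : FV.E (d + 1))) ^ (d + 1)) ∂(sig (d + 1)) =
      ∫⁻ u : Sph (d + 1), ∫⁻ g : O (d + 1), ENNReal.ofReal (F (ga g (r • (u : FV.E (d + 1)))) ^ (d + 1)) ∂(haarO (d + 1)) ∂(sig (d + 1)) := by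
    rw [lintegral_lintegral_swap]
    · simp only [h2]
      rw [lintegral_const, measure_univ, mul_one]
    · apply Measurable.aemeasurable
      have h6 : Continuous (fun p : Sph (d + 1) × O (d + 1) => F (ga p.2 (r • (p.1 : FV.E (d + 1)))) ^ (d + 1)) :=
        (((cont2 hF hr0 hr1).comp (continuous_swap)).pow _)
      exact h6.measurable.ennreal_ofReal
  rw [h5]
  have h7 : ∀ u : Sph (d + 1), ENNReal.ofReal ((∫ g : O (d + 1), F (ga g (r • EuclideanSpace.single 0 1)) ∂(haarO (d + 1))) ^ (d + 1)) ≤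
      ∫⁻ g : O (d + 1), ENNReal.ofReal (F (ga g (r • (u : FV.E (d + 1)))) ^ (d + 1)) ∂(haarO (d + 1)) := by
    intro u
    have hu : ‖(u : FV.E (d + 1))‖ = 1 := by simp
    have hc : Continuous (fun g : O (d + 1) => F (ga g (r • (u : FV.E (d + 1))))) :=
      (cont2 hF hr0 hr1).comp (continuous_id.prodMk continuous_const)
    have hnn : ∀ g : O (d + 1), 0 ≤ F (ga g (r • (u : FV.E (d + 1)))) := fun g =>
      (hpos _ (mem_pun hr0 hr1 hu g)).le
    have hint : Integrable (fun g : O (d + 1) => F (ga g (r • (u : FV.E (d + 1))))) (haarO (d + 1)) :=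
      hc.integrable_of_hasCompactSupport (HasCompactSupport.of_compactSpace _)
    have hintp : Integrable (fun g : O (d + 1) => F (ga g (r • (u : FV.E (d + 1)))) ^ (d + 1)) (haarO (d + 1)) :=
      (hc.pow _).integrable_of_hasCompactSupport (HasCompactSupport.of_compactSpace _)
    rw [hAvg d F (r • EuclideanSpace.single 0 1) (r • (u : FV.E (d + 1))) (by
      rw [norm_smul, norm_smul, hu]; simp)]
    rw [← ofReal_integral_eq_lintegral_ofReal hintp (Filter.Eventually.of_forall fun g => pow_nonneg (hnn g) _)]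
    apply ENNReal.ofReal_le_ofReal
    exact (convexOn_pow (d + 1)).map_integral_le (continuousOn_pow _) isClosed_Ici
      (Filter.Eventually.of_forall fun g => hnn g) hint hintp
  calc _ = ∫⁻ u : Sph (d + 1), ENNReal.ofReal ((∫ g : O (d + 1), F (ga g (r • EuclideanSpace.single 0 1)) ∂(haarO (d + 1))) ^ (d + 1)) ∂(sig (d + 1)) := by
        rw [lintegral_const, hsig, mul_comm]
    _ ≤ _ := lintegral_mono h7

end

/-- polar coordinates for the Lebesgue integral of a nonnegative measurable function -/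
theorem polar (d : ℕ) (H : FV.E (d + 1) → ENNReal) (hH : Measurable H) :
    ∫⁻ x, H x = ∫⁻ r in Ioi (0 : ℝ), ENNReal.ofReal (r ^ d) *
      ∫⁻ u : Sph (d + 1), H (r • (u : FV.E (d + 1))) ∂(sig (d + 1)) := by
  have : IsFiniteMeasure (sig (d + 1)) := by unfold sig; infer_instance
  have hdim : Module.finrank ℝ (FV.E (d + 1)) = d + 1 := by simp [FV.E]
  have hmeas : Measurable (fun p : (Ioi (0 : ℝ)) × Sph (d + 1) => H ((p.1 : ℝ) • (p.2 : FV.E (d + 1)))) := by
    apply hH.comp
    fun_prop
  calc ∫⁻ x, H x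
      = ∫⁻ x : ({(0 : FV.E (d + 1))}ᶜ : Set (FV.E (d + 1))), H x.1 ∂((volume : Measure (FV.E (d + 1))).comap (↑)) := by
        rw [lintegral_subtype_comap (measurableSet_singleton _).compl H,
          restrict_compl_singleton]
    _ = ∫⁻ p, H ((p.2 : ℝ) • (p.1 : FV.E (d + 1)))
          ∂((volume : Measure (FV.E (d + 1))).toSphere.prod
            (.volumeIoiPow (Module.finrank ℝ (FV.E (d + 1)) - 1))) := by
        have h := (volume : Measure (FV.E (d + 1))).measurePreserving_homeomorphUnitSphereProd.lintegral_comp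
          (f := fun p : (sphere (0 : FV.E (d + 1)) 1) × (Ioi (0 : ℝ)) =>
            H ((p.2 : ℝ) • (p.1 : FV.E (d + 1)))) (by
            apply hH.comp
            fun_prop)
        rw [← h]
        refine lintegral_congr fun x => ?_
        simp only [homeomorphUnitSphereProd_apply_snd_coe,
          homeomorphUnitSphereProd_apply_fst_coe]
        congr 1
        have hx : ‖(x : FV.E (d + 1))‖ ≠ 0 := norm_ne_zero_iff.mpr x.2
        rw [smul_smul, mul_inv_cancel₀ hx, one_smul]
    _ = ∫⁻ r : Ioi (0 : ℝ), ∫⁻ u : Sph (d + 1), H ((r : ℝ) • (u : FV.E (d + 1))) ∂(sig (d + 1))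
          ∂(.volumeIoiPow (Module.finrank ℝ (FV.E (d + 1)) - 1)) := by
        rw [lintegral_prod_symm]
        · rfl
        · apply Measurable.aemeasurable
          apply hH.comp
          fun_prop
    _ = _ := by
        have hm2 : Measurable (fun r : Ioi (0 : ℝ) => ∫⁻ u : Sph (d + 1), H ((r : ℝ) • (u : FV.E (d + 1))) ∂(sig (d + 1))) :=
          Measurable.lintegral_prod_right' hmeas
        rw [Measure.volumeIoiPow, lintegral_withDensity_eq_lintegral_mul _ (by fun_prop) hm2, hdim]
        have h8 := lintegral_subtype_comap (μ := (volume : Measure ℝ)) (s := Ioi (0 : ℝ)) measurableSet_Ioi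
          (fun r : ℝ => ENNReal.ofReal (r ^ d) *
            ∫⁻ u : Sph (d + 1), H (r • (u : FV.E (d + 1))) ∂(sig (d + 1)))
        rw [← h8]
        rfl

theorem taskVol : TaskVol := by
  classical
  intro hInv hAvg d hd F hF hpos
  set A : ℝ → ℝ := fun r => ∫ g : O (d + 1), F (ga g (r • EuclideanSpace.single 0 1)) ∂(haarO (d + 1)) with hA
  set H : FV.E (d + 1) → ENNReal := (ball (0 : FV.E (d + 1)) 1 \ {0}).indicator
    (fun x => ENNReal.ofReal (F x ^ (d + 1))) with hHdef
  have hsm : MeasurableSet (ball (0 : FV.E (d + 1)) 1 \ {0}) :=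
    measurableSet_ball.diff (measurableSet_singleton _)
  have hHm : Measurable H := by
    have h1 : ContinuousOn (fun x => ENNReal.ofReal (F x ^ (d + 1))) (ball (0 : FV.E (d + 1)) 1 \ {0}) :=
      ENNReal.continuous_ofReal.comp_continuousOn
        ((hF.mono (sdiff_subset_sdiff_left ball_subset_closedBall)).pow _)
    have h2 := h1.measurable_piecewise (g := fun _ => (0 : ENNReal)) continuousOn_const hsm
    have h3 : H = (ball (0 : FV.E (d + 1)) 1 \ {0}).piecewise
        (fun x => ENNReal.ofReal (F x ^ (d + 1))) (fun _ => (0 : ENNReal)) := by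
      rw [hHdef]
      exact (piecewise_eq_indicator (s := ball (0 : FV.E (d + 1)) 1 \ {0})).symm
    rw [h3]
    exact h2
  have hRHS : ∫⁻ x in ball (0 : FV.E (d + 1)) 1, ENNReal.ofReal (F x ^ (d + 1)) = ∫⁻ x, H x := by
    rw [hHdef, lintegral_indicator hsm]
    refine setLIntegral_congr ?_
    exact (sdiff_null_ae_eq_self (measure_singleton _)).symm
  rw [hRHS, polar d H hHm]
  -- lower bound for the inner integral
  have hin : ∀ r ∈ Ioo (0 : ℝ) 1, ENNReal.ofReal ((d + 1 : ℝ) * om (d + 1)) * ENNReal.ofReal (A r ^ (d + 1)) ≤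
      ∫⁻ u : Sph (d + 1), H (r • (u : FV.E (d + 1))) ∂(sig (d + 1)) := by
    intro r hr
    refine (sphere_ineq hInv hAvg hF hpos hr.1 hr.2.le).trans ?_
    refine lintegral_mono fun u => ?_
    have hu : ‖(u : FV.E (d + 1))‖ = 1 := by simp
    have h1 : ‖r • (u : FV.E (d + 1))‖ = r := by
      rw [norm_smul, hu, Real.norm_eq_abs, abs_of_pos hr.1, mul_one]
    have h2 : r • (u : FV.E (d + 1)) ∈ ball (0 : FV.E (d + 1)) 1 \ {0} := by
      refine ⟨by rw [mem_ball_zero_iff, h1]; exact hr.2, ?_⟩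
      intro h
      rw [mem_singleton_iff] at h
      rw [h, norm_zero] at h1
      exact hr.1.ne h1
    rw [hHdef, indicator_of_mem h2]
  calc ENNReal.ofReal ((d + 1 : ℝ) * om (d + 1)) *
      (∫⁻ t in Iic (0 : ℝ), ENNReal.ofReal (psi F t ^ (d + 1)))
      = ENNReal.ofReal ((d + 1 : ℝ) * om (d + 1)) *
      (∫⁻ t in Iio (0 : ℝ), ENNReal.ofReal |Real.exp t| * (ENNReal.ofReal (Real.exp t ^ d) * ENNReal.ofReal (A (Real.exp t) ^ (d + 1)))) := by
        congr 1
        rw [← restrict_Iio_eq_restrict_Iic]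
        refine lintegral_congr fun t => ?_
        rw [abs_of_pos (Real.exp_pos t), ← ENNReal.ofReal_mul (by positivity),
          ← ENNReal.ofReal_mul (by positivity)]
        congr 1
        unfold psi
        rw [mul_pow, pow_succ (Real.exp t) d]
        ring
    _ = ENNReal.ofReal ((d + 1 : ℝ) * om (d + 1)) *
      (∫⁻ r in Ioo (0 : ℝ) 1, ENNReal.ofReal (r ^ d) * ENNReal.ofReal (A r ^ (d + 1))) := by
        congr 1
        have h := lintegral_image_eq_lintegral_abs_deriv_mul (s := Iio (0 : ℝ)) measurableSet_Iio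
          (f := Real.exp) (f' := Real.exp) (fun x _ => (Real.hasDerivAt_exp x).hasDerivWithinAt)
          Real.exp_injective.injOn (fun r => ENNReal.ofReal (r ^ d) * ENNReal.ofReal (A r ^ (d + 1)))
        have himg : Real.exp '' Iio (0 : ℝ) = Ioo 0 1 := by
          ext y
          constructor
          · rintro ⟨x, hx, rfl⟩
            refine ⟨Real.exp_pos x, ?_⟩
            have h9 := Real.exp_lt_exp.mpr (show x < 0 from hx)
            rwa [Real.exp_zero] at h9
          · rintro ⟨h0, h1⟩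
            exact ⟨Real.log y, Real.log_neg h0 h1, Real.exp_log h0⟩
        rw [himg] at h
        exact h.symm
    _ = ∫⁻ r in Ioo (0 : ℝ) 1, ENNReal.ofReal (r ^ d) * (ENNReal.ofReal ((d + 1 : ℝ) * om (d + 1)) * ENNReal.ofReal (A r ^ (d + 1))) := by
        rw [← lintegral_const_mul' _ _ ENNReal.ofReal_ne_top]
        refine lintegral_congr fun r => ?_
        ring
    _ ≤ ∫⁻ r in Ioo (0 : ℝ) 1, ENNReal.ofReal (r ^ d) *
      ∫⁻ u : Sph (d + 1), H (r • (u : FV.E (d + 1))) ∂(sig (d + 1)) := by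
        refine setLIntegral_mono' measurableSet_Ioo fun r hr => ?_
        gcongr
        exact hin r hr
    _ ≤ _ := lintegral_mono_set Ioo_subset_Ioi_self

end Pool.Agent.H241R3.CF.TVol
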