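import Pool.Agent.H241R3.CF.Stmts

/-! Task TaskWal of project H241-CF (helper82). -/

set_option autoImplicit false

open MeasureTheory Metric Set Filter Topology InnerProductGeometry

namespace Pool.Agent.H241R3.CF.TWal

open Pool.Agent.H241R3.FV

/-- the integrals of the powers of the sine -/
noncomputable def J (n : ℕ) : ℝ := ∫ t in (0 : ℝ)..Real.pi, Real.sin t ^ n

theorem sin_red (n : ℕ) : ((n : ℝ) + 2) * J (n + 2) = (n + 1) * J n := by
  have h := integral_sin_pow (a := 0) (b := Real.pi) n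
  simp only [Real.sin_zero, Real.sin_pi, ne_eq, Nat.add_eq_zero_iff, one_ne_zero, and_false,
    not_false_eq_true, zero_pow, zero_mul, sub_self, zero_div, zero_add] at h
  unfold J
  rw [h]
  field_simp

theorem wallis (n : ℕ) : ((n : ℝ) + 1) * J (n + 1) * J n = 2 * Real.pi := by
  induction n with
  | zero =>
    unfold J
    simp
    norm_num
  | succ n ih =>
    have h := sin_red n
    push_cast
    calc ((n : ℝ) + 1 + 1) * J (n + 1 + 1) * J (n + 1)
        = (((n : ℝ) + 2) * J (n + 2)) * J (n + 1) := by ring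
      _ = ((n + 1) * J n) * J (n + 1) := by rw [h]
      _ = (n + 1) * J (n + 1) * J n := by ring
      _ = _ := ih

theorem om_rec (hP : TaskPolar) (d : ℕ) (hd : 1 ≤ d) : om (d + 1) = om d * J (d + 1) := by
  obtain ⟨n, rfl⟩ := Nat.exists_eq_add_of_le' hd
  have : Nonempty (Fin (n + 1 + 1)) := ⟨0⟩
  have hs : (sig (n + 1 + 1)).real univ = (n + 1 + 1 : ℕ) * om (n + 1 + 1) := by
    unfold sig om
    rw [Measure.toSphere_real_apply_univ]
    simp
  have hp := hP (n + 1) hd (fun _ => 1) continuous_const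
  simp only [integral_const, smul_eq_mul, mul_one, one_mul] at hp
  rw [hs] at hp
  have hr := sin_red n
  simp only [Nat.add_sub_cancel] at hp
  change _ = _ * J n at hp
  push_cast at hp
  have hd' : ((n : ℝ) + 1 + 1) ≠ 0 := by positivity
  apply mul_left_cancel₀ hd'
  rw [hp]
  linear_combination (-(om (n + 1))) * hr

theorem half (n : ℕ) : ∫ t in (0 : ℝ)..(Real.pi / 2), Real.sin t ^ n * Real.cos t ^ 2 =
    J n / (2 * (n + 2)) := by
  have hc : Continuous fun t : ℝ => Real.sin t ^ n * Real.cos t ^ 2 := by fun_prop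
  have h1 : ∫ t in (0 : ℝ)..(Real.pi / 2), Real.sin t ^ n * Real.cos t ^ 2 =
      ∫ t in (Real.pi / 2)..Real.pi, Real.sin t ^ n * Real.cos t ^ 2 := by
    have h2 := intervalIntegral.integral_comp_sub_left
      (fun t : ℝ => Real.sin t ^ n * Real.cos t ^ 2) (a := 0) (b := Real.pi / 2) Real.pi
    simp only [Real.sin_pi_sub, Real.cos_pi_sub, sub_zero, even_two, Even.neg_pow] at h2
    rw [h2]
    congr 1
    ring
  have h3 : (∫ t in (0 : ℝ)..(Real.pi / 2), Real.sin t ^ n * Real.cos t ^ 2) +
      ∫ t in (Real.pi / 2)..Real.pi, Real.sin t ^ n * Real.cos t ^ 2 =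
      ∫ t in (0 : ℝ)..Real.pi, Real.sin t ^ n * Real.cos t ^ 2 :=
    intervalIntegral.integral_add_adjacent_intervals (hc.intervalIntegrable _ _)
      (hc.intervalIntegrable _ _)
  have h4 : ∫ t in (0 : ℝ)..Real.pi, Real.sin t ^ n * Real.cos t ^ 2 = J n - J (n + 2) := by
    unfold J
    rw [← intervalIntegral.integral_sub ((by fun_prop : Continuous _).intervalIntegrable _ _)
      ((by fun_prop : Continuous _).intervalIntegrable _ _)]
    refine intervalIntegral.integral_congr fun t _ => ?_
    simp only [Real.cos_sq']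
    ring
  have h5 := sin_red n
  have h6 : ((n : ℝ) + 2) ≠ 0 := by positivity
  have h7 : J (n + 2) = (n + 1) * J n / (n + 2) := by
    rw [eq_div_iff h6, mul_comm]; exact h5
  rw [← h1, h4, h7] at h3
  have h8 : (n : ℝ) + 1 + 1 = n + 2 := by ring
  have h9 : 2 * (∫ t in (0 : ℝ)..(Real.pi / 2), Real.sin t ^ n * Real.cos t ^ 2) =
      J n - (n + 1) * J n / (n + 2) := by linarith
  field_simp at h9 ⊢
  linear_combination h9

theorem kap_eq (n : ℕ) : kap (n + 1) = J n / (2 * (n + 2)) := by
  unfold kap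
  simp only [Nat.add_sub_cancel]
  rw [← half n]
  have h := intervalIntegral.integral_comp_mul_deriv (a := 0) (b := Real.pi / 2)
    (f := Real.sin) (f' := Real.cos) (g := fun u : ℝ => u ^ n * √(1 - u ^ 2))
    (fun x _ => Real.hasDerivAt_sin x) (Real.continuous_cos.continuousOn) (by fun_prop)
  rw [Real.sin_zero, Real.sin_pi_div_two] at h
  rw [← h]
  refine intervalIntegral.integral_congr fun t ht => ?_
  rw [uIcc_of_le (by positivity)] at ht
  have hcos : 0 ≤ Real.cos t := Real.cos_nonneg_of_mem_Icc ⟨by linarith [ht.1, Real.pi_pos], ht.2⟩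
  simp only [Function.comp_apply]
  rw [← Real.cos_sq', Real.sqrt_sq hcos]
  ring

theorem beta (n : ℕ) : ∫ s in (0 : ℝ)..1, s ^ n * ((1 - s) * (Real.pi / 2)) =
    (Real.pi / 2) / ((n + 1) * (n + 2)) := by
  have h1 : ∀ s : ℝ, s ^ n * ((1 - s) * (Real.pi / 2)) =
      (Real.pi / 2) * s ^ n - (Real.pi / 2) * s ^ (n + 1) := by
    intro s; ring
  simp only [h1]
  rw [intervalIntegral.integral_sub ((by fun_prop : Continuous _).intervalIntegrable _ _)
      ((by fun_prop : Continuous _).intervalIntegrable _ _),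
    intervalIntegral.integral_const_mul, intervalIntegral.integral_const_mul, integral_pow,
    integral_pow]
  simp only [one_pow, ne_eq, Nat.add_eq_zero_iff, one_ne_zero, and_false, not_false_eq_true,
    zero_pow, sub_zero]
  push_cast
  field_simp
  ring

theorem taskWal : Pool.Agent.H241R3.CF.TaskWal := by
  intro hP d hd
  obtain ⟨n, rfl⟩ := Nat.exists_eq_add_of_le' hd
  have hJ : ∀ k, 0 < J k := fun k => integral_sin_pow_pos _
  have hk := kap_eq n
  have hkpos : 0 < kap (n + 1) := by
    rw [hk]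
    have := hJ n
    positivity
  refine ⟨hkpos, ?_⟩
  have h1 := om_rec hP (n + 2) (by omega)
  have h2 := sin_red (n + 1)
  have h3 := wallis n
  have h4 := beta n
  simp only [Nat.add_sub_cancel]
  rw [h4, hk]
  have e1 : om (n + 1 + 2) = om (n + 2) * J (n + 3) := h1
  have e2 : om (n + 1 + 1) = om (n + 2) := rfl
  rw [e1, e2]
  have hJn := (hJ n).ne'
  push_cast at h2 ⊢
  have e3 : ((n : ℝ) + 1 + 2) * J (n + 3) = (n + 2) * J (n + 1) := by
    have : n + 1 + 2 = n + 3 := by ring
    rw [← this, h2]; ring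
  have e4 : ((n : ℝ) + 1 + 2) * (om (n + 2) * J (n + 3)) / 2 =
      om (n + 2) * ((n + 2) * J (n + 1)) / 2 := by
    rw [← e3]; ring
  rw [e4]
  have e5 : Real.pi / 2 / (((n : ℝ) + 1) * (n + 2)) / (J n / (2 * (n + 2))) = J (n + 1) / 2 := by
    have : Real.pi = (n + 1) * J (n + 1) * J n / 2 := by linarith
    rw [this]
    field_simp
  rw [e5]
  ring

end Pool.Agent.H241R3.CF.TWal
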